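import Pool.Agent.R295.HM.Defs

/-!
# Blockwise conditional expectations between reduced linking algebras
-/

set_option autoImplicit false

open Filter Topology

namespace Pool.Agent.R295.HM

namespace HilbertModule

variable {B E : Type*} [NonUnitalCStarAlgebra B] [NormedAddCommGroup E] [NormedSpace ℂ E]
  (H : HilbertModule B E)

/-- The norm of the Hilbert module `B ⊕ E`: `‖(c, z)‖² = ‖c^* c + ⟨z, z⟩‖`. -/
noncomputable def colNorm (v : B × E) : ℝ := Real.sqrt ‖star v.1 * v.1 + H.ip v.2 v.2‖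

/-- The operator `S` on `B ⊕ E` has norm at most `C`. -/
def NormLE (S : B × E →ₗ[ℂ] B × E) (C : ℝ) : Prop := ∀ v, H.colNorm (S v) ≤ C * H.colNorm v

/-- `Φ` (restricted to the reduced linking algebra of `E`) is a blockwise conditional expectation of
the reduced linking algebra of `E` onto that of `F`: it is linear, maps the reduced linking algebra
of `E` into that of `F`, is the identity on that of `F`, does not increase norms, and maps each of
the four corners into the corresponding corner. -/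
structure IsBlockCondExp (F : Set E) (Φ : (B × E →ₗ[ℂ] B × E) → (B × E →ₗ[ℂ] B × E)) : Prop where
  add : ∀ S ∈ H.link Set.univ, ∀ T ∈ H.link Set.univ, Φ (S + T) = Φ S + Φ T
  smul : ∀ (c : ℂ), ∀ S ∈ H.link Set.univ, Φ (c • S) = c • Φ S
  mem : ∀ S ∈ H.link Set.univ, Φ S ∈ H.link F
  idem : ∀ S ∈ H.link F, Φ S = S
  contr : ∀ S ∈ H.link Set.univ, ∀ C : ℝ, 0 ≤ C → H.NormLE S C → H.NormLE (Φ S) C
  corner₁₁ : ∀ b ∈ H.coef Set.univ, ∃ b' ∈ H.coef F, Φ (H.block b 0 0 0) = H.block b' 0 0 0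
  corner₁₂ : ∀ x : E, ∃ x' ∈ F, Φ (H.block 0 x 0 0) = H.block 0 x' 0 0
  corner₂₁ : ∀ y : E, ∃ y' ∈ F, Φ (H.block 0 0 y 0) = H.block 0 0 y' 0
  corner₂₂ : ∀ T ∈ H.cpt Set.univ, ∃ T' ∈ H.cpt F, Φ (H.block 0 0 0 T) = H.block 0 0 0 T'

/-- A C*-algebra as a Hilbert module over itself: `x b` is the product, `⟨x, y⟩ = x^* y`. -/
def self (A : Type*) [NonUnitalCStarAlgebra A] : HilbertModule A A where
  act x b := x * b
  ip x y := star x * y
  act_add x b c := mul_add x b c
  add_act x y b := add_mul x y b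
  act_smul x z b := mul_smul_comm z x b
  smul_act z x b := smul_mul_assoc z x b
  act_mul x b c := (mul_assoc x b c).symm
  ip_add x y z := mul_add _ y z
  ip_smul x c y := mul_smul_comm c _ y
  ip_act x y b := (mul_assoc _ y b).symm
  star_ip x y := by rw [star_mul, star_star]
  ip_self_pos x := ⟨x, rfl⟩
  norm_sq x := by rw [CStarRing.norm_star_mul_self, sq]

@[simp] lemma self_act {A : Type*} [NonUnitalCStarAlgebra A] (x b : A) :
    (self A).act x b = x * b := rfl
@[simp] lemma self_ip {A : Type*} [NonUnitalCStarAlgebra A] (x y : A) :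
    (self A).ip x y = star x * y := rfl

lemma mem_coef {F : Set E} {x y : E} (hx : x ∈ F) (hy : y ∈ F) : H.ip x y ∈ H.coef F :=
  Submodule.le_topologicalClosure _ (Submodule.subset_span ⟨x, hx, y, hy, rfl⟩)

lemma block_mem_link₁₁ {F : Set E} (h0 : (0 : E) ∈ F) {b : B} (hb : b ∈ H.coef F) :
    H.block b 0 0 0 ∈ H.link F :=
  ⟨b, hb, 0, h0, 0, h0, 0, zero_mem _, rfl⟩

lemma block_mem_link₂₁ {F : Set E} (h0 : (0 : E) ∈ F) {y : E} (hy : y ∈ F) :
    H.block 0 0 y 0 ∈ H.link F :=
  ⟨0, zero_mem _, 0, h0, y, hy, 0, zero_mem _, rfl⟩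

lemma colNorm_zero_right (c : B) : H.colNorm (c, 0) = ‖c‖ := by
  rw [colNorm, H.ip_zero, add_zero, CStarRing.norm_star_mul_self, Real.sqrt_mul_self (norm_nonneg _)]

lemma colNorm_zero_left (z : E) : H.colNorm (0, z) = ‖z‖ := by
  rw [colNorm, mul_zero, zero_add, ← H.norm_sq, Real.sqrt_sq (norm_nonneg _)]

lemma norm_fst_le_colNorm (v : B × E) : ‖v.1‖ ≤ H.colNorm v := by
  let i1 : PartialOrder B := CStarAlgebra.spectralOrder B
  have i2 : StarOrderedRing B := CStarAlgebra.spectralOrderedRing B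
  have hpos : 0 ≤ H.ip v.2 v.2 := by
    obtain ⟨c, hc⟩ := H.ip_self_pos v.2
    rw [hc]
    exact star_mul_self_nonneg c
  apply Real.le_sqrt_of_sq_le
  rw [sq, ← CStarRing.norm_star_mul_self]
  exact CStarAlgebra.norm_le_norm_of_nonneg_of_le (star_mul_self_nonneg _)
    (le_add_of_nonneg_right hpos)

end HilbertModule

end Pool.Agent.R295.HM
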