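import Mathlib

/-!
# Right Hilbert C*-modules, their ternary subspaces and reduced linking algebras

Mathlib's `CStarModule` is for left modules, so we give the usual definition of a right Hilbert
module over a C*-algebra here.
-/

set_option autoImplicit false

open Filter Topology

namespace Pool.Agent.R295.HM

/-- The structure of a right Hilbert `B`-module on the Banach space `E`, where `B` is a C*-algebra:
a right action `act x b = x b` and a `B`-valued inner product `ip x y = ⟨x, y⟩`, linear in the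
second variable, with `‖x‖² = ‖⟨x, x⟩‖`. -/
structure HilbertModule (B E : Type*) [NonUnitalCStarAlgebra B] [NormedAddCommGroup E]
    [NormedSpace ℂ E] where
  /-- the right action, `act x b = x b` -/
  act : E → B → E
  /-- the inner product, `ip x y = ⟨x, y⟩` -/
  ip : E → E → B
  act_add : ∀ x b c, act x (b + c) = act x b + act x c
  add_act : ∀ x y b, act (x + y) b = act x b + act y b
  act_smul : ∀ (x : E) (z : ℂ) (b : B), act x (z • b) = z • act x b
  smul_act : ∀ (z : ℂ) (x : E) (b : B), act (z • x) b = z • act x b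
  act_mul : ∀ x b c, act x (b * c) = act (act x b) c
  ip_add : ∀ x y z, ip x (y + z) = ip x y + ip x z
  ip_smul : ∀ (x : E) (c : ℂ) (y : E), ip x (c • y) = c • ip x y
  ip_act : ∀ x y b, ip x (act y b) = ip x y * b
  star_ip : ∀ x y, star (ip x y) = ip y x
  ip_self_pos : ∀ x, ∃ c : B, ip x x = star c * c
  norm_sq : ∀ x, ‖x‖ ^ 2 = ‖ip x x‖

namespace HilbertModule

variable {B E : Type*} [NonUnitalCStarAlgebra B] [NormedAddCommGroup E] [NormedSpace ℂ E]
  (H : HilbertModule B E)

/-! ### basic properties -/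

lemma add_ip (x y z : E) : H.ip (x + y) z = H.ip x z + H.ip y z := by
  rw [← H.star_ip z (x + y), H.ip_add, star_add, H.star_ip, H.star_ip]

lemma smul_ip (c : ℂ) (x y : E) : H.ip (c • x) y = star c • H.ip x y := by
  rw [← H.star_ip y (c • x), H.ip_smul, star_smul, H.star_ip]

lemma act_ip (x y : E) (b : B) : H.ip (H.act x b) y = star b * H.ip x y := by
  rw [← H.star_ip y (H.act x b), H.ip_act, star_mul, H.star_ip]

/-- `y ↦ ⟨x, y⟩` as a linear map -/
def ipL (x : E) : E →ₗ[ℂ] B where
  toFun := H.ip x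
  map_add' := H.ip_add x
  map_smul' c y := H.ip_smul x c y

/-- `b ↦ x b` as a linear map -/
def actL (x : E) : B →ₗ[ℂ] E where
  toFun := H.act x
  map_add' := H.act_add x
  map_smul' c b := H.act_smul x c b

/-- `x ↦ x b` as a linear map -/
def actR (b : B) : E →ₗ[ℂ] E where
  toFun x := H.act x b
  map_add' x y := H.add_act x y b
  map_smul' c x := H.smul_act c x b

lemma ip_zero (x : E) : H.ip x 0 = 0 := (H.ipL x).map_zero
lemma zero_ip (y : E) : H.ip 0 y = 0 := by rw [← H.star_ip y 0, H.ip_zero, star_zero]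
lemma act_zero (x : E) : H.act x 0 = 0 := (H.actL x).map_zero
lemma zero_act (b : B) : H.act 0 b = 0 := (H.actR b).map_zero
lemma ip_sub (x y z : E) : H.ip x (y - z) = H.ip x y - H.ip x z := (H.ipL x).map_sub y z
lemma sub_ip (x y z : E) : H.ip (x - y) z = H.ip x z - H.ip y z := by
  rw [← H.star_ip z (x - y), H.ip_sub, star_sub, H.star_ip, H.star_ip]
lemma sub_act (x y : E) (b : B) : H.act (x - y) b = H.act x b - H.act y b := (H.actR b).map_sub x y

lemma norm_act_le (x : E) (b : B) : ‖H.act x b‖ ≤ ‖x‖ * ‖b‖ := by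
  have h1 : ‖H.act x b‖ ^ 2 ≤ (‖x‖ * ‖b‖) ^ 2 := by
    rw [H.norm_sq, H.ip_act, H.act_ip, mul_pow, H.norm_sq x]
    calc ‖star b * H.ip x x * b‖ ≤ ‖star b * H.ip x x‖ * ‖b‖ := norm_mul_le _ _
      _ ≤ ‖star b‖ * ‖H.ip x x‖ * ‖b‖ := by gcongr; exact norm_mul_le _ _
      _ = ‖H.ip x x‖ * ‖b‖ ^ 2 := by rw [norm_star]; ring
  exact (pow_le_pow_iff_left₀ (norm_nonneg _) (by positivity) two_ne_zero).1 h1

/-- the Cauchy-Schwarz inequality -/
lemma norm_ip_le (x y : E) : ‖H.ip x y‖ ≤ ‖x‖ * ‖y‖ := by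
  let i1 : PartialOrder B := CStarAlgebra.spectralOrder B
  have i2 : StarOrderedRing B := CStarAlgebra.spectralOrderedRing B
  have hpos : ∀ z, 0 ≤ H.ip z z := fun z => by
    obtain ⟨c, hc⟩ := H.ip_self_pos z
    rw [hc]
    exact star_mul_self_nonneg c
  by_cases hx : x = 0
  · rw [hx, H.zero_ip, norm_zero, norm_zero, zero_mul]
  have hx' : 0 < ‖x‖ := norm_pos_iff.2 hx
  set a := H.ip x y with ha
  set t : ℝ := (‖x‖ ^ 2)⁻¹ with ht
  have htp : 0 < t := by positivity
  have h1 : 0 ≤ H.ip (y - (t : ℂ) • H.act x a) (y - (t : ℂ) • H.act x a) := hpos _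
  have h2 : H.ip (y - (t : ℂ) • H.act x a) (y - (t : ℂ) • H.act x a) =
      H.ip y y - (t • (star a * a) + t • (star a * a)) + (t ^ 2) • (star a * H.ip x x * a) := by
    have e1 : H.ip y (H.act x a) = star a * a := by rw [H.ip_act, ha, H.star_ip]
    have e2 : H.ip (H.act x a) y = star a * a := by rw [H.act_ip, ha]
    have e3 : H.ip (H.act x a) (H.act x a) = star a * H.ip x x * a := by
      rw [H.ip_act, H.act_ip]
    rw [H.ip_sub, H.sub_ip, H.sub_ip, H.ip_smul, H.smul_ip, H.ip_smul, H.smul_ip, e1, e2, e3]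
    have e4 : star (t : ℂ) = (t : ℂ) := Complex.conj_ofReal t
    rw [e4, smul_smul, Complex.coe_smul, ← Complex.ofReal_mul, Complex.coe_smul, ← sq]
    abel
  have h3 : star a * H.ip x x * a ≤ ‖H.ip x x‖ • (star a * a) :=
    CStarAlgebra.star_left_conjugate_le_norm_smul (IsSelfAdjoint.of_nonneg (hpos x))
  have h4 : (t ^ 2) • (star a * H.ip x x * a) ≤ t • (star a * a) := by
    calc (t ^ 2) • (star a * H.ip x x * a) ≤ (t ^ 2) • (‖H.ip x x‖ • (star a * a)) :=
          smul_le_smul_of_nonneg_left h3 (by positivity)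
      _ = t • (star a * a) := by
          rw [smul_smul, ← H.norm_sq x]
          congr 1
          rw [ht]
          field_simp
  have h5 : t • (star a * a) ≤ H.ip y y := by
    rw [h2] at h1
    have h6 : 0 ≤ H.ip y y - t • (star a * a) := by
      calc 0 ≤ H.ip y y - (t • (star a * a) + t • (star a * a)) +
            (t ^ 2) • (star a * H.ip x x * a) := h1
        _ ≤ H.ip y y - (t • (star a * a) + t • (star a * a)) + t • (star a * a) := by gcongr
        _ = H.ip y y - t • (star a * a) := by abel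
    exact sub_nonneg.1 h6
  have h6 : ‖t • (star a * a)‖ ≤ ‖H.ip y y‖ :=
    CStarAlgebra.norm_le_norm_of_nonneg_of_le
      (smul_nonneg htp.le (star_mul_self_nonneg a)) h5
  rw [norm_smul, Real.norm_eq_abs, abs_of_pos htp, CStarRing.norm_star_mul_self,
    ← H.norm_sq y] at h6
  have h7 : ‖a‖ ^ 2 ≤ (‖x‖ * ‖y‖) ^ 2 := by
    have h8 : ‖a‖ * ‖a‖ = ‖x‖ ^ 2 * (t * (‖a‖ * ‖a‖)) := by
      rw [ht]; field_simp
    rw [sq, h8, mul_pow]
    gcongr
  exact (pow_le_pow_iff_left₀ (norm_nonneg _) (by positivity) two_ne_zero).1 h7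

/-- `y ↦ ⟨x, y⟩` as a continuous linear map -/
noncomputable def ipC (x : E) : E →L[ℂ] B :=
  (H.ipL x).mkContinuous ‖x‖ fun y => H.norm_ip_le x y

/-- `b ↦ x b` as a continuous linear map -/
noncomputable def actC (x : E) : B →L[ℂ] E :=
  (H.actL x).mkContinuous ‖x‖ fun b => H.norm_act_le x b

/-- `x ↦ x b` as a continuous linear map -/
noncomputable def actRC (b : B) : E →L[ℂ] E :=
  (H.actR b).mkContinuous ‖b‖ fun x => (H.norm_act_le x b).trans_eq (mul_comm _ _)

@[simp] lemma ipC_apply (x y : E) : H.ipC x y = H.ip x y := rfl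
@[simp] lemma actC_apply (x : E) (b : B) : H.actC x b = H.act x b := rfl
@[simp] lemma actRC_apply (x : E) (b : B) : H.actRC b x = H.act x b := rfl

/-! ### the definitions of the problem -/

/-- The rank-one operator `x y^* : z ↦ x ⟨y, z⟩` on `E`. -/
noncomputable def theta (x y : E) : E →L[ℂ] E := (H.actC x).comp (H.ipC y)

@[simp] lemma theta_apply (x y z : E) : H.theta x y z = H.act x (H.ip y z) := rfl

/-- `B_F`, the closed linear span of the inner products `⟨x, y⟩`, `x, y ∈ F`. -/
def coef (F : Set E) : Submodule ℂ B :=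
  (Submodule.span ℂ {b | ∃ x ∈ F, ∃ y ∈ F, b = H.ip x y}).topologicalClosure

/-- `K(F)`, the closed linear span (in the bounded operators on `E`) of the operators `x y^*`,
`x, y ∈ F`. -/
noncomputable def cpt (F : Set E) : Submodule ℂ (E →L[ℂ] E) :=
  (Submodule.span ℂ {T | ∃ x ∈ F, ∃ y ∈ F, T = H.theta x y}).topologicalClosure

/-- The block operator `[[b, x^*], [y, T]]` on `B ⊕ E`, which maps `(c, z)` to
`(b c + ⟨x, z⟩, y c + T z)`. -/
def block (b : B) (x y : E) (T : E →L[ℂ] E) : B × E →ₗ[ℂ] B × E where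
  toFun v := (b * v.1 + H.ip x v.2, H.act y v.1 + T v.2)
  map_add' v w := by
    ext
    · simp only [Prod.fst_add, Prod.snd_add, mul_add, H.ip_add]; abel
    · simp only [Prod.fst_add, Prod.snd_add, H.act_add, map_add]; abel
  map_smul' c v := by
    ext
    · simp only [Prod.smul_fst, Prod.smul_snd, mul_smul_comm, H.ip_smul, RingHom.id_apply,
        smul_add]
    · simp only [Prod.smul_fst, Prod.smul_snd, H.act_smul, map_smul, RingHom.id_apply, smul_add]

lemma block_apply (b : B) (x y : E) (T : E →L[ℂ] E) (c : B) (z : E) :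
    H.block b x y T (c, z) = (b * c + H.ip x z, H.act y c + T z) := rfl

/-- The reduced linking algebra `[[B_F, F^*], [F, K(F)]]` of a subspace `F` of `E`, as a set of
operators on `B ⊕ E`. In particular `H.link Set.univ` is the reduced linking algebra of `E`. -/
def link (F : Set E) : Set (B × E →ₗ[ℂ] B × E) :=
  {S | ∃ b ∈ H.coef F, ∃ x ∈ F, ∃ y ∈ F, ∃ T ∈ H.cpt F, S = H.block b x y T}

/-- A closed ternary subspace of `E`: a closed linear subspace `F` with `x ⟨y, z⟩ ∈ F` for all
`x, y, z ∈ F`. -/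
structure IsTernary (F : Submodule ℂ E) : Prop where
  closed : IsClosed (F : Set E)
  ternary : ∀ x ∈ F, ∀ y ∈ F, ∀ z ∈ F, H.act x (H.ip y z) ∈ F

end HilbertModule

end Pool.Agent.R295.HM
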