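import Pool.Agent.R295.HM.Defs

/-!
# Ternary hereditary subspaces are linking hereditary
-/

set_option autoImplicit false

open Filter Topology

namespace Pool.Agent.R295.HM

namespace HilbertModule

variable {B E : Type*} [NonUnitalCStarAlgebra B] [NormedAddCommGroup E] [NormedSpace ℂ E]
  (H : HilbertModule B E)

/-! ### nondegeneracy -/

lemma norm_sub_le_half (x : E) :
    ∃ c : ℝ, ‖x - (c : ℂ) • H.act x (H.ip x x)‖ ≤ ‖x‖ / 2 := by
  let i1 : PartialOrder B := CStarAlgebra.spectralOrder B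
  have i2 : StarOrderedRing B := CStarAlgebra.spectralOrderedRing B
  by_cases hx : x = 0
  · exact ⟨0, by simp [hx]⟩
  have hx' : 0 < ‖x‖ := norm_pos_iff.2 hx
  set h := H.ip x x with hh
  have hpos : 0 ≤ h := by
    obtain ⟨c, hc⟩ := H.ip_self_pos x
    rw [hh, hc]
    exact star_mul_self_nonneg c
  have hsa : IsSelfAdjoint h := IsSelfAdjoint.of_nonneg hpos
  have hn : ‖h‖ = ‖x‖ ^ 2 := (H.norm_sq x).symm
  set c : ℝ := (‖x‖ ^ 2)⁻¹ with hc
  have hcp : 0 < c := by positivity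
  refine ⟨c, ?_⟩
  set y := x - (c : ℂ) • H.act x h with hy
  have hstar : star (c : ℂ) = (c : ℂ) := Complex.conj_ofReal c
  have h1 : H.ip y y = h - (2 * c) • (h * h) + (c * c) • (h * h * h) := by
    have e1 : H.ip x (H.act x h) = h * h := by rw [H.ip_act]
    have e2 : H.ip (H.act x h) x = h * h := by rw [H.act_ip, hsa.star_eq]
    have e3 : H.ip (H.act x h) (H.act x h) = h * h * h := by
      rw [H.ip_act, H.act_ip, hsa.star_eq]
    rw [hy, H.ip_sub, H.sub_ip, H.sub_ip, H.ip_smul, H.smul_ip, H.ip_smul, H.smul_ip, e1, e2, e3,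
      hstar, smul_smul, ← Complex.ofReal_mul, Complex.coe_smul, Complex.coe_smul, ← hh, two_mul,
      add_smul]
    abel
  have h2 : H.ip y y = cfcₙ (fun t : ℝ => t - (2 * c) * (t * t) + (c * c) * (t * t * t)) h := by
    rw [h1]
    have f1 : cfcₙ (fun t : ℝ => t) h = h := cfcₙ_id' ℝ h
    have f2 : cfcₙ (fun t : ℝ => t * t) h = h * h := by
      rw [cfcₙ_mul (fun t : ℝ => t) (fun t : ℝ => t) h, f1]
    have f3 : cfcₙ (fun t : ℝ => t * t * t) h = h * h * h := by
      rw [cfcₙ_mul (fun t : ℝ => t * t) (fun t : ℝ => t) h, f1, f2]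
    have f4 : cfcₙ (fun t : ℝ => (2 * c) * (t * t)) h = (2 * c) • (h * h) := by
      rw [cfcₙ_const_mul (2 * c) (fun t : ℝ => t * t) h, f2]
    have f5 : cfcₙ (fun t : ℝ => (c * c) * (t * t * t)) h = (c * c) • (h * h * h) := by
      rw [cfcₙ_const_mul (c * c) (fun t : ℝ => t * t * t) h, f3]
    rw [cfcₙ_add (fun t : ℝ => t - (2 * c) * (t * t)) (fun t : ℝ => (c * c) * (t * t * t)) h,
      cfcₙ_sub (fun t : ℝ => t) (fun t : ℝ => (2 * c) * (t * t)) h, f1, f4, f5]
  have h3 : ‖H.ip y y‖ ≤ ‖x‖ ^ 2 / 4 := by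
    rw [h2]
    refine norm_cfcₙ_le fun t ht => ?_
    have ht0 : 0 ≤ t := quasispectrum_nonneg_of_nonneg h hpos t ht
    have ht1 : t ≤ ‖x‖ ^ 2 := by
      have := norm_apply_le_norm_cfcₙ (fun s : ℝ => s) h ht
      rw [cfcₙ_id' ℝ h, hn, Real.norm_eq_abs, abs_of_nonneg ht0] at this
      exact this
    have hct : c * t ≤ 1 := by
      rw [hc, inv_mul_le_iff₀ (by positivity), mul_one]
      exact ht1
    have hct0 : 0 ≤ c * t := by positivity
    have e1 : t - (2 * c) * (t * t) + (c * c) * (t * t * t) = t * (1 - c * t) ^ 2 := by ring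
    have e2 : t = ‖x‖ ^ 2 * (c * t) := by
      rw [hc]; field_simp
    rw [e1, Real.norm_eq_abs, abs_of_nonneg (by positivity), e2]
    set s := c * t with hs
    have e3 : s * (1 - s) ^ 2 ≤ 1 / 4 := by
      nlinarith [sq_nonneg (2 * s - 1), mul_nonneg hct0 (sub_nonneg.2 hct)]
    have e4 : c * (‖x‖ ^ 2 * s) = s := by
      rw [hc]; field_simp
    rw [e4]
    calc ‖x‖ ^ 2 * s * (1 - s) ^ 2 = ‖x‖ ^ 2 * (s * (1 - s) ^ 2) := by ring
      _ ≤ ‖x‖ ^ 2 * (1 / 4) := by gcongr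
      _ = ‖x‖ ^ 2 / 4 := by ring
  rw [← H.norm_sq] at h3
  have h4 : ‖y‖ ^ 2 ≤ (‖x‖ / 2) ^ 2 := by
    calc ‖y‖ ^ 2 ≤ ‖x‖ ^ 2 / 4 := h3
      _ = (‖x‖ / 2) ^ 2 := by ring
  exact (pow_le_pow_iff_left₀ (norm_nonneg _) (by positivity) two_ne_zero).1 h4

/-- the closed linear span of `F ⟨F, F⟩` -/
noncomputable def triple (F : Set E) : Submodule ℂ E :=
  (Submodule.span ℂ {v | ∃ x ∈ F, ∃ y ∈ F, ∃ z ∈ F, v = H.act x (H.ip y z)}).topologicalClosure

/-- a closed ternary subspace is the closed linear span of `F ⟨F, F⟩` -/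
lemma mem_triple {F : Submodule ℂ E} (hF : H.IsTernary F) {x : E} (hx : x ∈ F) :
    x ∈ H.triple F := by
  have key : ∀ n : ℕ, ∀ x ∈ F, ∃ v ∈ H.triple F, ‖x - v‖ ≤ ‖x‖ / 2 ^ n := by
    intro n
    induction n with
    | zero => exact fun x _ => ⟨0, zero_mem _, by simp⟩
    | succ n ih =>
      intro x hx
      obtain ⟨c, hc⟩ := H.norm_sub_le_half x
      have h1 : (c : ℂ) • H.act x (H.ip x x) ∈ F := F.smul_mem _ (hF.ternary x hx x hx x hx)
      obtain ⟨v, hv, hv'⟩ := ih (x - (c : ℂ) • H.act x (H.ip x x)) (F.sub_mem hx h1)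
      refine ⟨(c : ℂ) • H.act x (H.ip x x) + v, add_mem (Submodule.smul_mem _ _
        (Submodule.le_topologicalClosure _ (Submodule.subset_span
          ⟨x, hx, x, hx, x, hx, rfl⟩))) hv, ?_⟩
      rw [← sub_sub]
      refine hv'.trans ?_
      calc ‖x - (c : ℂ) • H.act x (H.ip x x)‖ / 2 ^ n ≤ (‖x‖ / 2) / 2 ^ n := by gcongr
        _ = ‖x‖ / 2 ^ (n + 1) := by rw [pow_succ]; field_simp
  have hcl : IsClosed ((H.triple F : Submodule ℂ E) : Set E) :=
    Submodule.isClosed_topologicalClosure _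
  choose! v hv hv' using key
  have hlim : Tendsto (fun n => v n x) atTop (𝓝 x) := by
    rw [tendsto_iff_norm_sub_tendsto_zero]
    refine squeeze_zero (fun n => norm_nonneg _) (fun n => ?_) (g := fun n : ℕ => ‖x‖ / 2 ^ n) ?_
    · rw [norm_sub_rev]; exact hv' n x hx
    · have : Tendsto (fun n : ℕ => ‖x‖ * (1 / 2 : ℝ) ^ n) atTop (𝓝 (‖x‖ * 0)) :=
        (tendsto_pow_atTop_nhds_zero_of_lt_one (by norm_num) (by norm_num)).const_mul _
      rw [mul_zero] at this
      refine this.congr fun n => ?_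
      rw [one_div, inv_pow, div_eq_mul_inv]
  exact hcl.mem_of_tendsto hlim (Filter.Eventually.of_forall fun n => hv n x hx)

/-! ### density arguments -/

lemma coef_map {F : Set E} {X : Type*} [NormedAddCommGroup X] [NormedSpace ℂ X] (f : B →L[ℂ] X)
    {N : Submodule ℂ X} (hN : IsClosed (N : Set X)) (h : ∀ x ∈ F, ∀ y ∈ F, f (H.ip x y) ∈ N)
    {b : B} (hb : b ∈ H.coef F) : f b ∈ N := by
  have h1 : H.coef F ≤ N.comap (f : B →ₗ[ℂ] X) := by
    apply Submodule.topologicalClosure_minimal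
    · rw [Submodule.span_le]
      rintro _ ⟨x, hx, y, hy, rfl⟩
      exact h x hx y hy
    · exact hN.preimage f.continuous
  exact h1 hb

lemma cpt_map {F : Set E} {X : Type*} [NormedAddCommGroup X] [NormedSpace ℂ X]
    (f : (E →L[ℂ] E) →L[ℂ] X)
    {N : Submodule ℂ X} (hN : IsClosed (N : Set X)) (h : ∀ x ∈ F, ∀ y ∈ F, f (H.theta x y) ∈ N)
    {T : E →L[ℂ] E} (hT : T ∈ H.cpt F) : f T ∈ N := by
  have h1 : H.cpt F ≤ N.comap (f : (E →L[ℂ] E) →ₗ[ℂ] X) := by
    apply Submodule.topologicalClosure_minimal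
    · rw [Submodule.span_le]
      rintro _ ⟨x, hx, y, hy, rfl⟩
      exact h x hx y hy
    · exact hN.preimage f.continuous
  exact h1 hT

lemma triple_map {F : Set E} {X : Type*} [NormedAddCommGroup X] [NormedSpace ℂ X] (f : E →L[ℂ] X)
    {N : Submodule ℂ X} (hN : IsClosed (N : Set X))
    (h : ∀ x ∈ F, ∀ y ∈ F, ∀ z ∈ F, f (H.act x (H.ip y z)) ∈ N)
    {v : E} (hv : v ∈ H.triple F) : f v ∈ N := by
  have h1 : H.triple F ≤ N.comap (f : E →ₗ[ℂ] X) := by
    apply Submodule.topologicalClosure_minimal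
    · rw [Submodule.span_le]
      rintro _ ⟨x, hx, y, hy, z, hz, rfl⟩
      exact h x hx y hy z hz
    · exact hN.preimage f.continuous
  exact h1 hv

lemma isClosed_coef (F : Set E) : IsClosed (H.coef F : Set B) :=
  Submodule.isClosed_topologicalClosure _

lemma isClosed_cpt (F : Set E) : IsClosed (H.cpt F : Set (E →L[ℂ] E)) :=
  Submodule.isClosed_topologicalClosure _

lemma ip_mem_coef {F : Set E} {x y : E} (hx : x ∈ F) (hy : y ∈ F) : H.ip x y ∈ H.coef F :=
  Submodule.le_topologicalClosure _ (Submodule.subset_span ⟨x, hx, y, hy, rfl⟩)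

lemma theta_mem_cpt {F : Set E} {x y : E} (hx : x ∈ F) (hy : y ∈ F) : H.theta x y ∈ H.cpt F :=
  Submodule.le_topologicalClosure _ (Submodule.subset_span ⟨x, hx, y, hy, rfl⟩)

lemma star_mem_coef {F : Set E} {b : B} (hb : b ∈ H.coef F) : star b ∈ H.coef F := by
  let N : Submodule ℂ B :=
    { carrier := {b | star b ∈ H.coef F}
      add_mem' := fun {a b} ha hb => by
        change star (a + b) ∈ H.coef F
        rw [star_add]; exact add_mem ha hb
      zero_mem' := by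
        change star (0 : B) ∈ H.coef F
        rw [star_zero]; exact zero_mem _
      smul_mem' := fun c b hb => by
        change star (c • b) ∈ H.coef F
        rw [star_smul]; exact Submodule.smul_mem _ _ hb }
  have h1 : H.coef F ≤ N := by
    apply Submodule.topologicalClosure_minimal
    · rw [Submodule.span_le]
      rintro _ ⟨x, hx, y, hy, rfl⟩
      change star (H.ip x y) ∈ H.coef F
      rw [H.star_ip]
      exact H.ip_mem_coef hy hx
    · exact (H.isClosed_coef F).preimage continuous_star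
  exact h1 hb

/-- operators with an adjoint -/
def Adj (T T' : E →L[ℂ] E) : Prop := ∀ x y, H.ip (T x) y = H.ip x (T' y)

variable {H}

lemma Adj.symm {T T' : E →L[ℂ] E} (h : H.Adj T T') : H.Adj T' T := fun x y => by
  rw [← H.star_ip y (T' x), ← h y x, H.star_ip]

lemma Adj.sub {T T' S S' : E →L[ℂ] E} (h : H.Adj T T') (h' : H.Adj S S') :
    H.Adj (T - S) (T' - S') := fun x y => by
  rw [ContinuousLinearMap.sub_apply, ContinuousLinearMap.sub_apply, H.sub_ip, H.ip_sub, h, h']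

lemma Adj.norm_le {T T' : E →L[ℂ] E} (h : H.Adj T T') : ‖T'‖ ≤ ‖T‖ := by
  refine T'.opNorm_le_bound (norm_nonneg _) fun y => ?_
  by_cases hy : ‖T' y‖ = 0
  · rw [hy]; positivity
  have h1 : ‖T' y‖ * ‖T' y‖ ≤ ‖T‖ * ‖y‖ * ‖T' y‖ := by
    calc ‖T' y‖ * ‖T' y‖ = ‖H.ip (T' y) (T' y)‖ := by rw [← H.norm_sq, sq]
      _ = ‖H.ip (T (T' y)) y‖ := by rw [h]
      _ ≤ ‖T (T' y)‖ * ‖y‖ := H.norm_ip_le _ _
      _ ≤ ‖T‖ * ‖T' y‖ * ‖y‖ := by gcongr; exact T.le_opNorm _
      _ = ‖T‖ * ‖y‖ * ‖T' y‖ := by ring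
  exact le_of_mul_le_mul_right h1 (lt_of_le_of_ne (norm_nonneg _) (Ne.symm hy))

variable (H)

lemma theta_adj (x y : E) : H.Adj (H.theta x y) (H.theta y x) := fun u v => by
  rw [H.theta_apply, H.theta_apply, H.act_ip, H.ip_act, H.star_ip]

lemma exists_adj [CompleteSpace E] {F : Set E} {T : E →L[ℂ] E} (hT : T ∈ H.cpt F) :
    ∃ T' ∈ H.cpt F, H.Adj T T' := by
  have hspan : ∀ T ∈ Submodule.span ℂ {T | ∃ x ∈ F, ∃ y ∈ F, T = H.theta x y},
      ∃ T' ∈ H.cpt F, H.Adj T T' := by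
    intro T hT
    induction hT using Submodule.span_induction with
    | mem T h =>
      obtain ⟨x, hx, y, hy, rfl⟩ := h
      exact ⟨H.theta y x, H.theta_mem_cpt hy hx, H.theta_adj x y⟩
    | zero => exact ⟨0, zero_mem _, fun x y => by
        rw [ContinuousLinearMap.zero_apply, ContinuousLinearMap.zero_apply, H.zero_ip, H.ip_zero]⟩
    | add S T _ _ hS hT =>
      obtain ⟨S', hS', h1⟩ := hS
      obtain ⟨T', hT', h2⟩ := hT
      exact ⟨S' + T', add_mem hS' hT', fun x y => by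
        rw [ContinuousLinearMap.add_apply, ContinuousLinearMap.add_apply, H.add_ip, H.ip_add, h1,
          h2]⟩
    | smul c T _ hT =>
      obtain ⟨T', hT', h2⟩ := hT
      exact ⟨star c • T', Submodule.smul_mem _ _ hT', fun x y => by
        rw [ContinuousLinearMap.smul_apply, ContinuousLinearMap.smul_apply, H.smul_ip, H.ip_smul,
          h2]⟩
  have hT' : T ∈ closure ((Submodule.span ℂ {T | ∃ x ∈ F, ∃ y ∈ F, T = H.theta x y} :
      Submodule ℂ (E →L[ℂ] E)) : Set (E →L[ℂ] E)) := hT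
  obtain ⟨t, ht, htlim⟩ := mem_closure_iff_seq_limit.1 hT'
  choose t' ht' hadj using fun n => hspan (t n) (ht n)
  have hcau : CauchySeq t' := by
    have h1 : CauchySeq t := htlim.cauchySeq
    rw [Metric.cauchySeq_iff] at h1 ⊢
    intro ε hε
    obtain ⟨N, hN⟩ := h1 ε hε
    refine ⟨N, fun m hm n hn => ?_⟩
    have := hN m hm n hn
    rw [dist_eq_norm] at this ⊢
    exact lt_of_le_of_lt ((hadj m).sub (hadj n)).norm_le this
  obtain ⟨T', hlim'⟩ := cauchySeq_tendsto_of_complete hcau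
  refine ⟨T', (H.isClosed_cpt F).mem_of_tendsto hlim' (Eventually.of_forall ht'), fun x y => ?_⟩
  have e1 : Tendsto (fun n => H.ip (t n x) y) atTop (𝓝 (H.ip (T x) y)) := by
    have h2 : Tendsto (fun n => H.ip y (t n x)) atTop (𝓝 (H.ip y (T x))) :=
      ((H.ipC y).continuous.tendsto _).comp
        (((ContinuousLinearMap.apply ℂ E x).continuous.tendsto _).comp htlim)
    have h3 := (continuous_star.tendsto _).comp h2
    rw [H.star_ip] at h3
    refine h3.congr fun n => ?_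
    simp only [Function.comp_apply, H.star_ip]
  have e2 : Tendsto (fun n => H.ip x (t' n y)) atTop (𝓝 (H.ip x (T' y))) :=
    ((H.ipC x).continuous.tendsto _).comp
      (((ContinuousLinearMap.apply ℂ E y).continuous.tendsto _).comp hlim')
  exact tendsto_nhds_unique (e1.congr fun n => hadj n x y) e2

/-- `x ↦ x w^*` as a continuous linear map -/
noncomputable def thetaL (w : E) : E →L[ℂ] (E →L[ℂ] E) :=
  LinearMap.mkContinuous
    { toFun := fun x => H.theta x w
      map_add' := fun x y => by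
        ext z; simp [H.add_act]
      map_smul' := fun c x => by
        ext z; simp [H.smul_act] } ‖w‖ (fun x => by
      refine ContinuousLinearMap.opNorm_le_bound _ (by positivity) fun z => ?_
      calc ‖H.act x (H.ip w z)‖ ≤ ‖x‖ * ‖H.ip w z‖ := H.norm_act_le _ _
        _ ≤ ‖x‖ * (‖w‖ * ‖z‖) := by gcongr; exact H.norm_ip_le _ _
        _ = ‖w‖ * ‖x‖ * ‖z‖ := by ring)

@[simp] lemma thetaL_apply (w x : E) : H.thetaL w x = H.theta x w := rfl

variable {H} in
lemma Adj.unique {T T' T'' : E →L[ℂ] E} (h : H.Adj T T') (h' : H.Adj T T'') : T' = T'' := by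
  ext y
  have h1 : H.ip (T' y - T'' y) (T' y - T'' y) = 0 := by
    rw [H.ip_sub, ← h, ← h', sub_self]
  have h2 := H.norm_sq (T' y - T'' y)
  rw [h1, norm_zero] at h2
  have h3 : ‖T' y - T'' y‖ = 0 := by simpa using h2
  exact sub_eq_zero.1 (norm_eq_zero.1 h3)

lemma adj_mem_cpt [CompleteSpace E] {F : Set E} {T T' : E →L[ℂ] E} (hT : T ∈ H.cpt F)
    (h : H.Adj T T') : T' ∈ H.cpt F := by
  obtain ⟨T'', hT'', h''⟩ := H.exists_adj hT
  rwa [h.unique h'']

section hered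

variable {F : Submodule ℂ E} (hF : H.IsTernary F)
  (her : ∀ x ∈ F, ∀ y : E, ∀ z ∈ F, H.act x (H.ip y z) ∈ F)

include hF her

lemma her_L1 {x : E} (hx : x ∈ F) (b : B) {k : B} (hk : k ∈ H.coef F) :
    H.act (H.act x b) k ∈ F := by
  refine H.coef_map (H.actC (H.act x b)) hF.closed (fun u hu v hv => ?_) hk
  have h1 : H.act (H.act x b) (H.ip u v) = H.act x (H.ip (H.act u (star b)) v) := by
    rw [H.act_ip, star_star, ← H.act_mul]
  rw [actC_apply, h1]
  exact her x hx _ v hv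

lemma her_L2 {T : E →L[ℂ] E} (hT : T ∈ H.cpt F) (y : E) {k : B} (hk : k ∈ H.coef F) :
    H.act (T y) k ∈ F := by
  refine H.cpt_map ((H.actRC k).comp (ContinuousLinearMap.apply ℂ E y)) hF.closed
    (fun p hp q hq => ?_) hT
  exact H.her_L1 hF her hp (H.ip q y) hk

lemma her_L3 {T : E →L[ℂ] E} (hT : T ∈ H.cpt F) {w : E}
    (hw : ∀ p ∈ F, ∀ q ∈ F, H.act p (H.ip q w) ∈ F) : T w ∈ F := by
  refine H.cpt_map (ContinuousLinearMap.apply ℂ E w) hF.closed (fun p hp q hq => ?_) hT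
  exact hw p hp q hq

lemma her_L3' {T S S' : E →L[ℂ] E} (hT : T ∈ H.cpt F) (hS : H.Adj S S') {y : E} (hy : y ∈ F) :
    T (S y) ∈ F := by
  refine H.her_L3 hF her hT fun p hp q hq => ?_
  rw [← hS.symm]
  exact her p hp _ y hy

lemma her_L4 {b₁ b₂ : B} (h₁ : b₁ ∈ H.coef F) (b : B) (h₂ : b₂ ∈ H.coef F) :
    b₁ * b * b₂ ∈ H.coef F := by
  rw [mul_assoc]
  refine H.coef_map ((ContinuousLinearMap.mul ℂ B).flip (b * b₂)) (H.isClosed_coef F)
    (fun u hu v hv => ?_) h₁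
  change H.ip u v * (b * b₂) ∈ H.coef F
  rw [← H.ip_act, H.act_mul]
  exact H.ip_mem_coef hu (H.her_L1 hF her hv b h₂)

lemma her_L5 {x : E} (hx : x ∈ F) (y : E) {k : B} (hk : k ∈ H.coef F) :
    H.ip x y * k ∈ H.coef F := by
  refine H.coef_map ((ContinuousLinearMap.mul ℂ B) (H.ip x y)) (H.isClosed_coef F)
    (fun u hu v hv => ?_) hk
  change H.ip x y * H.ip u v ∈ H.coef F
  have h1 : H.ip x y * H.ip u v = H.ip (H.act u (H.ip y x)) v := by
    rw [H.act_ip, H.star_ip]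
  rw [h1]
  exact H.ip_mem_coef (her u hu y x hx) hv

lemma her_L6 {y : E} (hy : y ∈ F) (x : E) {k : B} (hk : k ∈ H.coef F) :
    k * H.ip x y ∈ H.coef F := by
  have h1 := H.star_mem_coef (H.her_L5 hF her hy x (H.star_mem_coef hk))
  rwa [star_mul, star_star, H.star_ip] at h1

lemma her_L7 {x y : E} (hx : x ∈ F) (hy : y ∈ F) {T T' : E →L[ℂ] E} (hT : H.Adj T T') :
    H.ip x (T y) ∈ H.coef F := by
  rw [← H.star_ip]
  refine H.star_mem_coef ?_
  refine H.triple_map (H.ipC (T y)) (H.isClosed_coef F) (fun a ha u hu v hv => ?_)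
    (H.mem_triple hF hx)
  rw [ipC_apply, H.ip_act, hT]
  exact H.her_L5 hF her hy _ (H.ip_mem_coef hu hv)

lemma her_L8 [CompleteSpace E] {x y : E} (hx : x ∈ F) (hy : y ∈ F) (b : B) :
    H.theta (H.act y b) x ∈ H.cpt F := by
  refine H.adj_mem_cpt ?_ (H.theta_adj x (H.act y b))
  refine H.triple_map (H.thetaL (H.act y b)) (H.isClosed_cpt F) (fun a ha u hu v hv => ?_)
    (H.mem_triple hF hx)
  have h1 : H.thetaL (H.act y b) (H.act a (H.ip u v)) =
      H.theta a (H.act (H.act y b) (H.ip v u)) := by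
    ext z
    rw [thetaL_apply, theta_apply, theta_apply, ← H.act_mul, H.act_ip (H.act y b) z (H.ip v u),
      H.star_ip]
  rw [h1]
  exact H.theta_mem_cpt ha (H.her_L1 hF her hy b (H.ip_mem_coef hv hu))

lemma her_L9 {x : E} (hx : x ∈ F) (y : E) {T : E →L[ℂ] E} (hT : T ∈ H.cpt F) :
    H.theta (T y) x ∈ H.cpt F := by
  refine H.cpt_map ((H.thetaL x).comp (ContinuousLinearMap.apply ℂ E y)) (H.isClosed_cpt F)
    (fun p hp q hq => ?_) hT
  have h1 : ((H.thetaL x).comp (ContinuousLinearMap.apply ℂ E y)) (H.theta p q) =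
      H.theta p (H.act x (H.ip y q)) := by
    ext z
    change H.act (H.act p (H.ip q y)) (H.ip x z) = H.act p (H.ip (H.act x (H.ip y q)) z)
    rw [← H.act_mul, H.act_ip, H.star_ip]
  rw [h1]
  exact H.theta_mem_cpt hp (her x hx y q hq)

lemma her_L10 {y : E} (hy : y ∈ F) (x : E) {T : E →L[ℂ] E} (hT : T ∈ H.cpt F) :
    (H.theta y x).comp T ∈ H.cpt F := by
  refine H.cpt_map (ContinuousLinearMap.compL ℂ E E E (H.theta y x)) (H.isClosed_cpt F)
    (fun p hp q hq => ?_) hT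
  have h1 : ContinuousLinearMap.compL ℂ E E E (H.theta y x) (H.theta p q) =
      H.theta (H.act y (H.ip x p)) q := by
    ext z
    change H.act y (H.ip x (H.act p (H.ip q z))) = H.act (H.act y (H.ip x p)) (H.ip q z)
    rw [← H.act_mul, H.ip_act]
  rw [h1]
  exact H.theta_mem_cpt (her y hy x p hp) hq

lemma her_L11 [CompleteSpace E] {T₁ T₂ S S' : E →L[ℂ] E} (h₁ : T₁ ∈ H.cpt F) (hS : H.Adj S S')
    (h₂ : T₂ ∈ H.cpt F) : T₁.comp (S.comp T₂) ∈ H.cpt F := by
  obtain ⟨T₂', h₂', hadj⟩ := H.exists_adj h₂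
  refine H.cpt_map ((ContinuousLinearMap.compL ℂ E E E).flip (S.comp T₂)) (H.isClosed_cpt F)
    (fun p hp q hq => ?_) h₁
  have h1 : (ContinuousLinearMap.compL ℂ E E E).flip (S.comp T₂) (H.theta p q) =
      H.theta p (T₂' (S' q)) := by
    ext z
    change H.act p (H.ip q (S (T₂ z))) = H.act p (H.ip (T₂' (S' q)) z)
    rw [← hS.symm, hadj.symm]
  rw [h1]
  exact H.theta_mem_cpt hp (H.her_L3' hF her h₂' hS.symm hq)

/-- **Ternary hereditary subspaces are linking hereditary.** -/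
theorem link_hereditary [CompleteSpace E] {S A S' : B × E →ₗ[ℂ] B × E} (hS : S ∈ H.link F)
    (hA : A ∈ H.link Set.univ) (hS' : S' ∈ H.link F) : S ∘ₗ A ∘ₗ S' ∈ H.link F := by
  obtain ⟨b₁, hb₁, x₁, hx₁, y₁, hy₁, T₁, hT₁, rfl⟩ := hS
  obtain ⟨b, hb, x, -, y, -, T, hT, rfl⟩ := hA
  obtain ⟨b₂, hb₂, x₂, hx₂, y₂, hy₂, T₂, hT₂, rfl⟩ := hS'
  obtain ⟨T', -, hTT'⟩ := H.exists_adj hT
  obtain ⟨T₂', hT₂', hT₂T₂'⟩ := H.exists_adj hT₂
  refine ⟨b₁ * b * b₂ + H.ip x₁ y * b₂ + b₁ * H.ip x y₂ + H.ip x₁ (T y₂),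
    add_mem (add_mem (add_mem (H.her_L4 hF her hb₁ b hb₂) (H.her_L5 hF her hx₁ y hb₂))
      (H.her_L6 hF her hy₂ x hb₁)) (H.her_L7 hF her hx₁ hy₂ hTT'),
    H.act (H.act x₂ (star b)) (star b₁) + H.act x₂ (H.ip y x₁) + T₂' (H.act x (star b₁)) +
      T₂' (T' x₁),
    F.add_mem (F.add_mem (F.add_mem (H.her_L1 hF her hx₂ (star b) (H.star_mem_coef hb₁))
      (her x₂ hx₂ y x₁ hx₁)) ?_) (H.her_L3' hF her hT₂' hTT'.symm hx₁),
    H.act (H.act y₁ b) b₂ + H.act (T₁ y) b₂ + H.act y₁ (H.ip x y₂) + T₁ (T y₂),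
    F.add_mem (F.add_mem (F.add_mem (H.her_L1 hF her hy₁ b hb₂) (H.her_L2 hF her hT₁ y hb₂))
      (her y₁ hy₁ x y₂ hy₂)) (H.her_L3' hF her hT₁ hTT' hy₂),
    H.theta (H.act y₁ b) x₂ + H.theta (T₁ y) x₂ + (H.theta y₁ x).comp T₂ + T₁.comp (T.comp T₂),
    add_mem (add_mem (add_mem (H.her_L8 hF her hx₂ hy₁ b) (H.her_L9 hF her hx₂ y hT₁))
      (H.her_L10 hF her hy₁ x hT₂)) (H.her_L11 hF her hT₁ hTT' hT₂), ?_⟩
  · refine H.her_L3 hF her hT₂' fun p hp q hq => ?_
    rw [H.ip_act, H.act_mul]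
    exact H.her_L1 hF her hp _ (H.star_mem_coef hb₁)
  · have hmod : ∀ (S : E →L[ℂ] E) (S' : E →L[ℂ] E), H.Adj S S' → ∀ v c,
        S (H.act v c) = H.act (S v) c := by
      intro S S' hSS v c
      have h1 : H.ip (S (H.act v c) - H.act (S v) c) (S (H.act v c) - H.act (S v) c) = 0 := by
        have h2 : ∀ w, H.ip (S (H.act v c) - H.act (S v) c) w = 0 := by
          intro w
          rw [H.sub_ip, hSS, H.act_ip, H.act_ip, hSS, sub_self]
        exact h2 _
      have h2 := H.norm_sq (S (H.act v c) - H.act (S v) c)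
      rw [h1, norm_zero] at h2
      have h3 : ‖S (H.act v c) - H.act (S v) c‖ = 0 := by simpa using h2
      exact sub_eq_zero.1 (norm_eq_zero.1 h3)
    obtain ⟨T₁', -, hT₁T₁'⟩ := H.exists_adj hT₁
    apply LinearMap.ext
    rintro ⟨c, z⟩
    simp only [LinearMap.comp_apply, block_apply]
    ext1
    · simp only [mul_add, add_mul, H.ip_add, H.add_ip, map_add, H.ip_act, H.act_ip, star_mul,
        star_star, H.star_ip, mul_assoc, hT₂T₂'.symm _ z, hTT'.symm _ _,
        hmod T T' hTT']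
      abel
    · simp only [H.act_add, H.add_act, map_add, ContinuousLinearMap.add_apply,
        ContinuousLinearMap.comp_apply, theta_apply, H.act_mul, hmod T T' hTT',
        hmod T₁ T₁' hT₁T₁', H.ip_add, H.ip_act]
      abel

end hered

end HilbertModule

end Pool.Agent.R295.HM
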